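import Pool.Agent.W_MP_09e4ca_co.Lower

/-!
# MP_09e4ca_co : the exceptional triples with `h ∈ {2, m - 2}` and `n < 2m`
-/

namespace Pool.Agent.Results.MP_09e4ca_co.Dense

open W_MP_09e4ca_co Finset

theorem value {m h : ℕ} (hm : h < m) (hh : h = 2 ∨ h + 2 = m) : h * m - h ^ 2 + 1 = 2 * m - 3 := by
  rcases hh with rfl | rfl
  · omega
  · have : h * (h + 2) = h ^ 2 + 2 * h := by ring
    rw [this]; omega

theorem uh_value {n m h : ℕ} (hh : h = 2 ∨ h + 2 = m) : uh n m h = uh n m 2 := by
  rcases hh with rfl | hh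
  · rfl
  · exact uh_compl (by omega)

theorem two_iff {n m : ℕ} (hm3 : 3 ≤ m) (hn : m ≤ n) (h2m : n < 2 * m) :
    uh n m 2 < min n (2 * m - 3) ↔ Even n ∧ 2 * m = n + 2 ∧ ∀ k, n ≠ 2 ^ k := by
  have i1 : NeZero n := ⟨by omega⟩
  constructor
  · intro hex
    obtain ⟨A, hA, hu⟩ := exists_uh (h := 2) hn
    rw [← hu] at hex
    have hne : restr A 2 ≠ univ := by
      intro h
      rw [h, card_univ, ZMod.card] at hex
      exact absurd (hex.trans_le (min_le_left _ _)) (lt_irrefl _)
    rcases Nat.even_or_odd n with hev | hodd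
    · have h1 : 2 * m = n + 2 := by
        obtain ⟨r, hr⟩ := hev
        by_contra h
        apply hne
        apply restr_univ_of
        omega
      refine ⟨hev, h1, ?_⟩
      intro k hk
      have := pow_lower hk (A := A) (by omega)
      have h3 := hex.trans_le (min_le_right _ _)
      omega
    · exfalso
      have h1 : 2 * m = n + 1 := by
        by_contra h
        apply hne
        apply restr_univ_of_odd hodd
        omega
      have := odd_lower hodd (A := A) (by omega)
      have h3 := hex.trans_le (min_le_right _ _)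
      omega
  · rintro ⟨hev, hnm, hpow⟩
    obtain ⟨A, hA, hr⟩ := exists_quasi (n := n) (e := n) (g := 1) (k := 1) (m := m) (h := 2)
      (by ring) hev (by omega) hpow le_rfl le_rfl (by omega) (Or.inl rfl)
    have := uh_le (h := 2) A hA
    rw [lt_min_iff]
    omega

/-- **Theorem.** Let `1 ≤ h < m ≤ n`, `n < 2m` and `h = 2` or `h = m - 2`.  Then the upper bound
`min {u(n,m,h), hm - h² + 1}` for `û(n,m,h)` is not attained if and only if `n` is even, not a
power of two, and `m = n/2 + 1`. -/
theorem result (n m h : ℕ) (h1 : 1 ≤ h) (hm : h < m) (hn : m ≤ n) (h2m : n < 2 * m)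
    (hh : h = 2 ∨ h = m - 2) :
    Exceptional n m h ↔ Even n ∧ m = n / 2 + 1 ∧ ∀ k : ℕ, n ≠ 2 ^ k := by
  have i1 : NeZero n := ⟨by omega⟩
  have hh' : h = 2 ∨ h + 2 = m := by omega
  have hm3 : 3 ≤ m := by omega
  have key : (Even n ∧ 2 * m = n + 2 ∧ ∀ k, n ≠ 2 ^ k) ↔
      (Even n ∧ m = n / 2 + 1 ∧ ∀ k : ℕ, n ≠ 2 ^ k) := by
    constructor
    · rintro ⟨⟨r, hr⟩, h2, h3⟩
      exact ⟨⟨r, hr⟩, by omega, h3⟩
    · rintro ⟨⟨r, hr⟩, h2, h3⟩
      exact ⟨⟨r, hr⟩, by omega, h3⟩
  rw [← key]
  unfold Exceptional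
  rw [value hm hh', uh_value hh']
  by_cases h2 : 2 ≤ h
  · rw [u_eq hn h2m h2]
    exact two_iff hm3 hn h2m
  · -- `h = 1`, `m = 3`
    have h3 : h = 1 := by omega
    have hm3' : m = 3 := by omega
    subst h3; subst hm3'
    constructor
    · intro hex
      exfalso
      obtain ⟨A, hA, hu⟩ := exists_uh (n := n) (m := 3) (h := 1) hn
      have h4 : uh n 3 1 = uh n 3 2 := uh_compl (by norm_num)
      rw [← h4, ← hu] at hex
      have h5 : (restr A 1).card = A.card := by
        unfold restr
        rw [card_image_of_injOn]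
        · rw [card_powersetCard, Nat.choose_one_right]
        · intro s hs t ht hst
          simp only [mem_coe, mem_powersetCard] at hs ht
          obtain ⟨a, rfl⟩ := card_eq_one.1 hs.2
          obtain ⟨b, rfl⟩ := card_eq_one.1 ht.2
          simpa using hst
      rw [h5, hA] at hex
      have := hex.trans_le (min_le_right _ _)
      omega
    · rintro ⟨_, h5, h6⟩
      exfalso
      exact h6 2 (by omega)

end Pool.Agent.Results.MP_09e4ca_co.Dense
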