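import Pool.Agent.W_MP_09e4ca_co.Constr

/-!
# MP_09e4ca_co : a new infinite family of exceptional triples
-/

namespace Pool.Agent.Results.MP_09e4ca_co.Family

open W_MP_09e4ca_co Finset

/-- **Theorem.** Let `e` be an even divisor of `n` which is not a power of two, `k ≥ 1`,
`m = (k - 1)e + e/2 + 1 ≤ n`, `1 ≤ h < m` and let `h` or `m - h` be one of `2`, `e/2 - 1`.  If
`hm - h² + 1 ≤ u(n,m,h)`, then the upper bound is not attained. -/
theorem result (n m h e k : ℕ) (h1 : 1 ≤ h) (hm : h < m) (hn : m ≤ n)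
    (he : e ∣ n) (hev : Even e) (hpow : ∀ j : ℕ, e ≠ 2 ^ j)
    (hk : 1 ≤ k) (hmk : m = (k - 1) * e + e / 2 + 1)
    (hh : (h = 2 ∨ h = e / 2 - 1) ∨ (m - h = 2 ∨ m - h = e / 2 - 1))
    (hu : h * m - h ^ 2 + 1 ≤ u n m h) :
    Exceptional n m h := by
  have i1 : NeZero n := ⟨by omega⟩
  have he0 : 0 < e := Nat.pos_of_dvd_of_pos he (by omega)
  obtain ⟨g, hg⟩ := he
  have hval : h * m - h ^ 2 = h * (m - h) := by
    rw [Nat.mul_sub, sq]
  -- the small parameter
  obtain ⟨h0, hh0, huh, hv⟩ : ∃ h0, (h0 = 2 ∨ h0 = e / 2 - 1) ∧ uh n m h = uh n m h0 ∧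
      h * (m - h) = h0 * (m - h0) := by
    rcases hh with hh | hh
    · exact ⟨h, hh, rfl, rfl⟩
    · refine ⟨m - h, hh, (uh_compl (by omega)).symm, ?_⟩
      have : m - (m - h) = h := by omega
      rw [this, mul_comm]
  have hun : u n m h ≤ n := by
    obtain ⟨A, hA, hAu⟩ := exists_u (h := h) hn
    rw [← hAu]
    calc _ ≤ (univ : Finset (ZMod n)).card := card_le_card (subset_univ _)
      _ = n := by rw [card_univ, ZMod.card]
  obtain ⟨r, hr'⟩ := id hev
  have he3 : 3 ≤ r := by
    by_contra hlt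
    have h1 := hpow 1
    have h2 := hpow 2
    omega
  have her : e / 2 = r := by omega
  rw [hval] at hu
  have hkg : k ≤ g := by
    -- h0 * (m - h0) + 1 ≤ n
    have h2 : h0 * (m - h0) + 1 ≤ e * g := by rw [← hv, ← hg]; omega
    have h3 : 1 ≤ h0 := by omega
    have h4 : (k - 1) * e + (r + 1 - h0) = m - h0 := by rw [hmk, her]; omega
    have h5 : h0 * (m - h0) = h0 * ((k - 1) * e) + h0 * (r + 1 - h0) := by
      rw [← h4]; ring
    have h6 : h0 * (r + 1 - h0) = e - 2 := by
      rcases hh0 with rfl | h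
      · omega
      · have : r + 1 - h0 = 2 := by omega
        rw [this]; omega
    have h7 : (k - 1) * e ≤ h0 * ((k - 1) * e) := Nat.le_mul_of_pos_left _ h3
    have h8 : (k - 1) * e + e ≤ e * g + 1 := by omega
    by_contra hlt
    push Not at hlt
    have h9 : g * e + e ≤ (k - 1) * e + e := by
      have : g * e ≤ (k - 1) * e := Nat.mul_le_mul_right e (by omega)
      omega
    have h10 : g * e = e * g := by ring
    omega
  obtain ⟨A, hA, hr⟩ := exists_quasi hg hev he0 hpow hk hkg hmk hh0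
  have h6 := uh_le (h := h0) A hA
  unfold Exceptional
  rw [huh, hval, lt_min_iff, hv]
  rw [hv] at hu
  omega

end Pool.Agent.Results.MP_09e4ca_co.Family
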