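import Pool.Agent.W_09e4ca_h1.Fin

/-!
# MP_09e4ca_co : `n` a prime power
-/

namespace Pool.Agent.Results.MP_09e4ca_co.PrimePowers

open W_MP_09e4ca_co W09h33

/-- Let `p` be a prime and `1 ≤ h < m ≤ p ^ k`. Then `û(p ^ k, m, h)` is the minimum over `s ≤ k` of
`hm - h² + 1 - δ(p ^ s, m, h)`, `u(p ^ k, m, h)` is the minimum over `s ≤ k` of
`(h ⌊(m - 1) / p ^ s⌋ + 1) p ^ s`, and the exceptional triples with `n = p ^ k` are determined; there are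
none for `p = 2`. -/
theorem result (p k m h : ℕ) (hp : p.Prime) (h1 : 1 ≤ h) (h2 : h < m) (h3 : m ≤ p ^ k) :
    ((∀ s ≤ k, uh (p ^ k) m h ≤ h * m - h ^ 2 + 1 - delta (p ^ s) m h) ∧
      ∃ s ≤ k, uh (p ^ k) m h = h * m - h ^ 2 + 1 - delta (p ^ s) m h) ∧
    ((∀ s ≤ k, u (p ^ k) m h ≤ (h * ((m - 1) / p ^ s) + 1) * p ^ s) ∧
      ∃ s ≤ k, u (p ^ k) m h = (h * ((m - 1) / p ^ s) + 1) * p ^ s) ∧
    (Exceptional (p ^ k) m h ↔ ∃ s ≤ k, 0 < delta (p ^ s) m h ∧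
      ∀ j ≤ k, h * m - h ^ 2 + 1 - delta (p ^ s) m h <
        (h * ((m - 1) / p ^ j) + 1) * p ^ j) ∧
    (p = 2 → ¬ Exceptional (p ^ k) m h) := by
  refine ⟨⟨?_, ?_⟩, ⟨?_, ?_⟩, ?_, ?_⟩
  · intro s hs
    rw [W09h1.fval h2]
    have := W09h1.uh_upper hp h1 h2 h3 hs
    omega
  · obtain ⟨s, hs, hl⟩ := W09h1.uh_lower hp h1 h2 h3
    refine ⟨s, hs, ?_⟩
    rw [W09h1.fval h2]
    have := W09h1.uh_upper hp h1 h2 h3 hs
    omega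
  · intro s hs
    exact W09h1.u_upper hp h1 h2 h3 hs
  · obtain ⟨s, hs, hl⟩ := W09h1.u_lower hp h1 h2 h3
    exact ⟨s, hs, le_antisymm (W09h1.u_upper hp h1 h2 h3 hs) hl⟩
  · rw [W09h1.fval h2]
    exact W09h1.exc_iff hp h1 h2 h3
  · rintro rfl
    exact W09h1.not_exc_two h1 h2 h3

end Pool.Agent.Results.MP_09e4ca_co.PrimePowers
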