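import Pool.Agent.W_MP_09e4ca_h33.Final

/-!
# MP_09e4ca_co : `n = pq` with `m ≤ p`, and `n = 2p`
-/

namespace Pool.Agent.Results.MP_09e4ca_co.TwoPrimes

open W_MP_09e4ca_co W09h33

/-- Let `q < p` be primes and `1 ≤ h < m ≤ p`. Then
`û(pq, m, h) = min {p, hm - h² + 1 - δ}`, and `(pq, m, h)` is exceptional iff `δ > 0`,
`hm - h² + 1 - δ < p` and (`q ≤ h` or `0 < m mod q < h`). Moreover, for an odd prime `p` all the
exceptional triples with `n = 2p` are determined. -/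
theorem result :
    (∀ p q m h : ℕ, p.Prime → q.Prime → q < p → 1 ≤ h → h < m → m ≤ p →
      uh (p * q) m h = min p (h * m - h ^ 2 + 1 - delta q m h) ∧
      (Exceptional (p * q) m h ↔
        0 < delta q m h ∧ h * m - h ^ 2 + 1 - delta q m h < p ∧
          (q ≤ h ∨ (0 < m % q ∧ m % q < h)))) ∧
    (∀ p m h : ℕ, p.Prime → p ≠ 2 → 1 ≤ h → h < m → m ≤ 2 * p →
      (Exceptional (2 * p) m h ↔
        (m ≤ p ∧ Even m ∧ Even h ∧ h * (m - h) < p) ∨
        (m = p + 1 ∧ (h = 2 ∨ h + 2 = m)) ∨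
        (p = 5 ∧ m = 6 ∧ h = 3))) := by
  refine ⟨?_, ?_⟩
  · intro p q m h hp hq hqp h1 h2 h3
    rw [fval h2]
    exact ⟨uh_value hp hq hqp h1 h2 h3, exc_iff hp hq hqp h1 h2 h3⟩
  · intro p m h hp hp2 h1 h2 h3
    exact two_p hp hp2 h1 h2 h3

end Pool.Agent.Results.MP_09e4ca_co.TwoPrimes
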